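import Pool.Agent.H717.PR.Stm

/-!
# Project PR717 (helper717), task MEM: membership in the list of vertices
-/

set_option autoImplicit false

namespace Pool.Agent.H962.PR

open Pool.Agent.NPC Pool.Agent.H622R2 Pool.Agent.V11227.BT
open Pool.Agent.H717.PR

theorem mem0 (I : Inst) (w : VL) : w ∈ (base I).map (fun u => ((0, (u, u)) : VL)) ↔
    (w.1 = 0 ∧ w.2.1 = w.2.2 ∧ w.2.1 ∈ base I) := by
  obtain ⟨k, u, v⟩ := w
  rw [List.mem_map]
  constructor
  · rintro ⟨a, ha, h⟩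
    simp only [Prod.mk.injEq] at h
    obtain ⟨rfl, rfl, rfl⟩ := h
    exact ⟨rfl, rfl, ha⟩
  · rintro ⟨h1, h2, h3⟩
    change k = 0 at h1
    change u = v at h2
    change u ∈ base I at h3
    subst h1 h2
    exact ⟨u, h3, rfl⟩

theorem mem1 (I : Inst) (w : VL) : w ∈ (base I).flatMap (fun u => (base I).flatMap (fun v =>
    if near I u v = true then
      [((1, (u, v)) : VL), (2, (u, v)), (3, (u, v)), (4, (u, v))] else [])) ↔
    (1 ≤ w.1 ∧ w.1 ≤ 4 ∧ w.2.1 ∈ base I ∧ w.2.2 ∈ base I ∧ near I w.2.1 w.2.2 = true) := by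
  obtain ⟨k, u, v⟩ := w
  rw [List.mem_flatMap]
  constructor
  · rintro ⟨a, ha, h⟩
    rw [List.mem_flatMap] at h
    obtain ⟨b, hb, h⟩ := h
    by_cases hn : near I a b = true
    · rw [if_pos hn] at h
      simp only [List.mem_cons, List.not_mem_nil, or_false, Prod.mk.injEq] at h
      rcases h with ⟨rfl, rfl, rfl⟩ | ⟨rfl, rfl, rfl⟩ | ⟨rfl, rfl, rfl⟩ | ⟨rfl, rfl, rfl⟩ <;>
        exact ⟨by norm_num, by norm_num, ha, hb, hn⟩
    · rw [if_neg hn] at h
      exact absurd h List.not_mem_nil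
  · rintro ⟨h1, h2, hu, hv, hn⟩
    refine ⟨u, hu, ?_⟩
    rw [List.mem_flatMap]
    refine ⟨v, hv, ?_⟩
    have hn' : near I u v = true := hn
    have h1' : 1 ≤ k := h1
    have h2' : k ≤ 4 := h2
    rw [if_pos hn']
    simp only [List.mem_cons, List.not_mem_nil, or_false, Prod.mk.injEq, and_true]
    omega

theorem mem5 (I : Inst) (w : VL) : w ∈ (base I).flatMap (fun u => (base I).flatMap (fun v =>
    if far I u v = true then
      [((5, (u, v)) : VL), (6, (u, v)), (7, (u, v)), (8, (u, v)), (9, (u, v)), (10, (u, v)),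
        (11, (u, v)), (12, (u, v)), (13, (u, v))] else [])) ↔
    (5 ≤ w.1 ∧ w.1 ≤ 13 ∧ w.2.1 ∈ base I ∧ w.2.2 ∈ base I ∧ far I w.2.1 w.2.2 = true) := by
  obtain ⟨k, u, v⟩ := w
  rw [List.mem_flatMap]
  constructor
  · rintro ⟨a, ha, h⟩
    rw [List.mem_flatMap] at h
    obtain ⟨b, hb, h⟩ := h
    by_cases hn : far I a b = true
    · rw [if_pos hn] at h
      simp only [List.mem_cons, List.not_mem_nil, or_false, Prod.mk.injEq] at h
      rcases h with ⟨rfl, rfl, rfl⟩ | ⟨rfl, rfl, rfl⟩ | ⟨rfl, rfl, rfl⟩ | ⟨rfl, rfl, rfl⟩ |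
        ⟨rfl, rfl, rfl⟩ | ⟨rfl, rfl, rfl⟩ | ⟨rfl, rfl, rfl⟩ | ⟨rfl, rfl, rfl⟩ | ⟨rfl, rfl, rfl⟩ <;>
        exact ⟨by norm_num, by norm_num, ha, hb, hn⟩
    · rw [if_neg hn] at h
      exact absurd h List.not_mem_nil
  · rintro ⟨h1, h2, hu, hv, hn⟩
    refine ⟨u, hu, ?_⟩
    rw [List.mem_flatMap]
    refine ⟨v, hv, ?_⟩
    have hn' : far I u v = true := hn
    have h1' : 5 ≤ k := h1
    have h2' : k ≤ 13 := h2
    rw [if_pos hn']
    simp only [List.mem_cons, List.not_mem_nil, or_false, Prod.mk.injEq, and_true]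
    omega

theorem t_mem : S_mem := by
  intro I w
  unfold vs vs0
  rw [mem_ddup, List.mem_append, List.mem_append, mem0, mem1, mem5]

end Pool.Agent.H962.PR
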